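import Pool.Agent.K3h14.FD.Ten

/-!
# Far apart degrees: the core of the proof
-/

set_option autoImplicit false
set_option linter.unusedSectionVars false
set_option linter.unusedSimpArgs false
set_option backward.isDefEq.respectTransparency false
set_option backward.defeqAttrib.useBackward true

open CategoryTheory Limits MonoidalCategory
open scoped Polynomial
open Pool.Agent.Y112.SR Pool.Agent.Y112.KD Pool.Agent.Y112.SC Pool.Agent.K3h63.CC

namespace Pool.Agent.K3h14.FD

universe v u w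

section

variable {C : Type u} [Category.{v} C] [Preadditive C] [Linear ℚ C] [MonoidalCategory C]
  [MonoidalPreadditive C] [MonoidalLinear ℚ C] [SymmetricCategory C]
  [RightRigidCategory C] {K : Type w} [Field K] [CharZero K] {R : SuperRealisation C K}
  (G : Grading R)

variable (R) in
/-- The algebra of the algebraic operators on `H X`. -/
def algS (X : C) : Subalgebra K (Module.End K (R.H.obj X)) where
  carrier := {x | Algebraic R ⊤ (X := X) (Y := X) (ModuleCat.ofHom x)}
  mul_mem' {a b} ha hb := by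
    have h : ModuleCat.ofHom (a * b) = ModuleCat.ofHom b ≫ ModuleCat.ofHom a := rfl
    change Algebraic R ⊤ (X := X) (Y := X) (ModuleCat.ofHom (a * b))
    rw [h]
    exact Algebraic.comp hb ha
  add_mem' {a b} ha hb := by
    have h : ModuleCat.ofHom (a + b) = ModuleCat.ofHom a + ModuleCat.ofHom b := rfl
    change Algebraic R ⊤ (X := X) (Y := X) (ModuleCat.ofHom (a + b))
    rw [h]
    exact Algebraic.add ha hb
  algebraMap_mem' r := by
    have h : ModuleCat.ofHom (algebraMap K (Module.End K (R.H.obj X)) r) =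
      r • 𝟙 (R.H.obj X) := rfl
    change Algebraic R ⊤ (X := X) (Y := X) (ModuleCat.ofHom (algebraMap K _ r))
    rw [h]
    exact (Algebraic.one X).smul trivial

lemma mem_algS {X : C} {x : Module.End K (R.H.obj X)} :
    x ∈ algS R X ↔ Algebraic R ⊤ (X := X) (Y := X) (ModuleCat.ofHom x) := Iff.rfl

lemma aeval_mem {X : C} {x : Module.End K (R.H.obj X)} (hx : x ∈ algS R X) (p : K[X]) :
    Polynomial.aeval x p ∈ algS R X := by
  have h : Polynomial.aeval x p ∈ Algebra.adjoin K {x} := Polynomial.aeval_mem_adjoin_singleton K x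
  exact Algebra.adjoin_le (Set.singleton_subset_iff.mpr hx) h

/-- Fitting idempotents. -/
lemma fit (hF : S_FIT.{w}) {X : C} {x : R.H.obj X ⟶ R.H.obj X} (hx : Algebraic R ⊤ x) :
    ∃ g x' : R.H.obj X ⟶ R.H.obj X, Algebraic R ⊤ g ∧ g ≫ g = g ∧ g = x ≫ x' ∧ g = x' ≫ x ∧
      ∀ Q : R.H.obj X ⟶ R.H.obj X, Q ≫ x = Q → Q ≫ g = Q := by
  have := R.finite X
  obtain ⟨p, h0, h1, h2⟩ := hF K (R.H.obj X) x.hom
  have hp : p = Polynomial.X * p.divX := by
    conv_lhs => rw [← Polynomial.X_mul_divX_add p, h0, map_zero, add_zero]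
  have hxS : x.hom ∈ algS R X := hx
  refine ⟨ModuleCat.ofHom (Polynomial.aeval x.hom p), ModuleCat.ofHom (Polynomial.aeval x.hom p.divX),
    aeval_mem hxS p, ?_, ?_, ?_, ?_⟩
  · have h : ModuleCat.ofHom (Polynomial.aeval x.hom p * Polynomial.aeval x.hom p) = ModuleCat.ofHom (Polynomial.aeval x.hom p) := by
      rw [h1]
    exact h
  · have h : Polynomial.aeval x.hom p = Polynomial.aeval x.hom p.divX * x.hom := by
      conv_lhs => rw [hp, mul_comm, map_mul, Polynomial.aeval_X]
    have h' : ModuleCat.ofHom (Polynomial.aeval x.hom p) = ModuleCat.ofHom (Polynomial.aeval x.hom p.divX * x.hom) := by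
      rw [← h]
    exact h'
  · have h : Polynomial.aeval x.hom p = x.hom * Polynomial.aeval x.hom p.divX := by
      conv_lhs => rw [hp, map_mul, Polynomial.aeval_X]
    have h' : ModuleCat.ofHom (Polynomial.aeval x.hom p) = ModuleCat.ofHom (x.hom * Polynomial.aeval x.hom p.divX) := by
      rw [← h]
    exact h'
  · intro Q hQ
    have h3 : x.hom * Q.hom = Q.hom := congrArg ModuleCat.Hom.hom hQ
    have h4 := h2 Q.hom h3
    have h5 : ModuleCat.ofHom (Polynomial.aeval x.hom p * Q.hom) = ModuleCat.ofHom Q.hom := by rw [h4]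
    exact h5

lemma sum_tr {X : C} (g : R.H.obj X ⟶ R.H.obj X) :
    tr _ g = ∑ j ∈ G.supp X, tr _ (g ≫ G.pr X j) := by
  rw [← map_sum, ← Preadditive.comp_sum, G.sum_supp, Category.comp_id]

lemma sum_deg {X : C} (g : R.H.obj X ⟶ R.H.obj X) :
    tr _ (g ≫ G.deg X) = ∑ j ∈ G.supp X, (j : K) * tr _ (g ≫ G.pr X j) := by
  rw [Grading.deg, Grading.th, Preadditive.comp_sum, map_sum]
  refine Finset.sum_congr rfl fun j _ => ?_
  rw [Linear.comp_smul, map_smul, smul_eq_mul]
  push_cast
  rfl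

/-- Products of separating operators. -/
lemma sep_prod {X : C} {k : ℤ} (T : Finset ℤ) (h : ∀ l ∈ T, Sep G X k l) :
    ∃ F : R.H.obj X ⟶ R.H.obj X, Algebraic R ⊤ F ∧ G.pr X k ≫ F = G.pr X k ∧
      ∀ l ∈ T, G.pr X l ≫ F = 0 := by
  classical
  induction T using Finset.induction_on with
  | empty =>
    exact ⟨𝟙 _, Algebraic.one X, Category.comp_id _, fun l hl => absurd hl (Finset.notMem_empty l)⟩
  | insert l T hl ih =>
    obtain ⟨F, hF, hk, h0⟩ := ih fun j hj => h j (Finset.mem_insert_of_mem hj)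
    obtain ⟨f, hf, hfk, hfl⟩ := h l (Finset.mem_insert_self l T)
    refine ⟨F ≫ f, hF.comp hf, ?_, fun j hj => ?_⟩
    · rw [← Category.assoc, hk, hfk]
    · rcases Finset.mem_insert.mp hj with rfl | hj'
      · rw [← Category.assoc, ← hF.pr_comm G, Category.assoc, hfl, comp_zero]
      · rw [← Category.assoc, h0 j hj', zero_comp]

lemma idem_pr {X : C} {g : R.H.obj X ⟶ R.H.obj X} (hg : Algebraic R ⊤ g) (hi : g ≫ g = g) (j : ℤ) :
    (g ≫ G.pr X j) ≫ (g ≫ G.pr X j) = g ≫ G.pr X j := by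
  rw [Category.assoc, ← Category.assoc (G.pr X j), ← hg.pr_comm G j, Category.assoc, G.idem,
    ← Category.assoc, hi]

/-- Separation is symmetric. -/
lemma Sep.symm {X : C} {k l : ℤ} (h : Sep G X k l) : Sep G X l k := by
  obtain ⟨f, hf, h1, h2⟩ := h
  refine ⟨𝟙 _ - f, (Algebraic.one X).sub hf, ?_, ?_⟩
  · rw [Preadditive.comp_sub, h2, Category.comp_id, sub_zero]
  · rw [Preadditive.comp_sub, h1, Category.comp_id, sub_self]

/-- The contradiction: a degree `k` of `E` which is separated from all degrees on the other side of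
the mean. -/
lemma contra (hF : S_FIT.{w}) {X : C} {E : R.H.obj X ⟶ R.H.obj X} (hE : Algebraic R ⊤ E)
    (hEi : E ≫ E = E) {q : ℚ} (hm : Mean G X E (q : K)) {k : ℤ} (hk : E ≫ G.pr X k ≠ 0) (s : ℚ)
    (h : ∀ l : ℤ, s * (l : ℚ) ≤ s * q → Sep G X k l) : False := by
  classical
  obtain ⟨F, hFa, hFk, hFl⟩ := sep_prod G (k := k)
    ((G.supp X).filter fun l => s * (l : ℚ) ≤ s * q)
    (fun l hl => h l (Finset.mem_filter.mp hl).2)
  have hFl' : ∀ l : ℤ, s * (l : ℚ) ≤ s * q → G.pr X l ≫ F = 0 := by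
    intro l hl
    by_cases hs : l ∈ G.supp X
    · exact hFl l (Finset.mem_filter.mpr ⟨hs, hl⟩)
    · rw [G.pr_zero hs, zero_comp]
  have hx : Algebraic R ⊤ (E ≫ F ≫ E) := hE.comp (hFa.comp hE)
  obtain ⟨g, x', hg, hgi, hg1, hg2, hQ⟩ := fit hF hx
  have c1 : ∀ j, E ≫ G.pr X j = G.pr X j ≫ E := fun j => hE.pr_comm G j
  have hEg : E ≫ g = g := by
    rw [hg1]
    simp only [← Category.assoc]
    rw [hEi]
  have hgE : g ≫ E = g := by
    rw [hg2]
    simp only [Category.assoc]
    rw [hEi]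
  have hkg : (E ≫ G.pr X k) ≫ g = E ≫ G.pr X k := by
    apply hQ
    calc (E ≫ G.pr X k) ≫ E ≫ F ≫ E = E ≫ (G.pr X k ≫ E) ≫ F ≫ E := by
          simp only [Category.assoc]
      _ = (E ≫ E) ≫ (G.pr X k ≫ F) ≫ E := by
          rw [← c1]
          simp only [Category.assoc]
      _ = E ≫ (G.pr X k ≫ E) := by rw [hEi, hFk]
      _ = (E ≫ E) ≫ G.pr X k := by rw [← c1, Category.assoc]
      _ = E ≫ G.pr X k := by rw [hEi]
  have hlg : ∀ l : ℤ, s * (l : ℚ) ≤ s * q → G.pr X l ≫ g = 0 := by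
    intro l hl
    rw [hg1]
    calc G.pr X l ≫ (E ≫ F ≫ E) ≫ x' = (G.pr X l ≫ E) ≫ F ≫ E ≫ x' := by
          simp only [Category.assoc]
      _ = E ≫ (G.pr X l ≫ F) ≫ E ≫ x' := by
          rw [← c1]
          simp only [Category.assoc]
      _ = 0 := by rw [hFl' l hl, zero_comp, comp_zero]
  have hmean := hm g hg hEg hgE
  rw [sum_deg G, sum_tr G g, Finset.mul_sum] at hmean
  choose t ht ht0 using fun j : ℤ => tr_idem (R.finite X) _ (idem_pr G hg hgi j)
  have h1 : ∑ j ∈ G.supp X, ((j : ℚ) - q) * (t j : ℚ) = 0 := by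
    have h2 : ((∑ j ∈ G.supp X, ((j : ℚ) - q) * (t j : ℚ) : ℚ) : K) = 0 := by
      push_cast
      have h3 : ∑ j ∈ G.supp X, ((j : K) - (q : K)) * (t j : K) =
          ∑ j ∈ G.supp X, (j : K) * tr _ (g ≫ G.pr X j) -
            ∑ j ∈ G.supp X, (q : K) * tr _ (g ≫ G.pr X j) := by
        rw [← Finset.sum_sub_distrib]
        refine Finset.sum_congr rfl fun j _ => ?_
        rw [ht j, sub_mul]
      rw [h3, hmean, sub_self]
    exact_mod_cast h2
  have h1' : ∑ j ∈ G.supp X, (s * (j : ℚ) - s * q) * (t j : ℚ) = 0 := by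
    rw [← mul_zero s, ← h1, Finset.mul_sum]
    exact Finset.sum_congr rfl fun j _ => by ring
  have h4 : ∀ j ∈ G.supp X, 0 ≤ (s * (j : ℚ) - s * q) * (t j : ℚ) := by
    intro j _
    by_cases hj : s * (j : ℚ) ≤ s * q
    · have h5 : g ≫ G.pr X j = 0 := by rw [hg.pr_comm G, hlg j hj]
      have h6 : (t j : K) = 0 := by rw [← ht j, h5, map_zero]
      have h7 : t j = 0 := by exact_mod_cast h6
      rw [h7, Nat.cast_zero, mul_zero]
    · exact mul_nonneg (by linarith) (Nat.cast_nonneg _)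
  have hks : k ∈ G.supp X := by
    by_contra h8
    exact hk (by rw [G.pr_zero h8, comp_zero])
  have h9 := (Finset.sum_eq_zero_iff_of_nonneg h4).mp h1' k hks
  have hkq : ¬ s * (k : ℚ) ≤ s * q := by
    intro h10
    apply hk
    rw [← hkg, Category.assoc, hlg k h10, comp_zero]
  have h11 : (t k : ℚ) = 0 := by
    rcases mul_eq_zero.mp h9 with h12 | h12
    · exact absurd (le_of_eq (sub_eq_zero.mp h12)) hkq
    · exact h12
  have h13 : g ≫ G.pr X k = 0 := ht0 k (by exact_mod_cast h11)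
  apply hk
  rw [← hkg, Category.assoc, ← hg.pr_comm G, h13, comp_zero]

variable (R) in
/-- Primitive algebraic idempotents. -/
def Prim (X : C) (e : R.H.obj X ⟶ R.H.obj X) : Prop :=
  Algebraic R ⊤ e ∧ e ≫ e = e ∧ e ≠ 0 ∧ ∀ f : R.H.obj X ⟶ R.H.obj X, Algebraic R ⊤ f →
    f ≫ f = f → e ≫ f = f → f ≫ e = f → f = 0 ∨ f = e

lemma exists_prim (hM : S_MIN.{w}) {X : C} {q : R.H.obj X ⟶ R.H.obj X} (hq : Algebraic R ⊤ q)
    (hqi : q ≫ q = q) (hq0 : q ≠ 0) : ∃ e, Prim R X e ∧ q ≫ e = e ∧ e ≫ q = e := by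
  have := R.finite X
  obtain ⟨e, heS, hei, he0, h1, h2, h3⟩ := hM K (R.H.obj X) (algS R X) q.hom hq
    (congrArg ModuleCat.Hom.hom hqi) (fun h => hq0 (ModuleCat.hom_ext h))
  refine ⟨ModuleCat.ofHom e, ⟨heS, ?_, ?_, ?_⟩, ?_, ?_⟩
  · have h : ModuleCat.ofHom (e * e) = ModuleCat.ofHom e := by rw [hei]
    exact h
  · intro h
    exact he0 (congrArg ModuleCat.Hom.hom h)
  · intro f hf hfi hef hfe
    rcases h3 f.hom hf (congrArg ModuleCat.Hom.hom hfi) (congrArg ModuleCat.Hom.hom hfe)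
      (congrArg ModuleCat.Hom.hom hef) with h | h
    · exact Or.inl (ModuleCat.hom_ext h)
    · exact Or.inr (ModuleCat.hom_ext h)
  · have h : ModuleCat.ofHom (e * q.hom) = ModuleCat.ofHom e := by rw [h2]
    exact h
  · have h : ModuleCat.ofHom (q.hom * e) = ModuleCat.ofHom e := by rw [h1]
    exact h

/-- Traces on the degrees of a primitive idempotent. -/
lemma prim_trace (hT : S_TRP.{w}) {X : C} {e : R.H.obj X ⟶ R.H.obj X} (he : Prim R X e)
    {a : R.H.obj X ⟶ R.H.obj X} (ha : Algebraic R ⊤ a) (h1 : e ≫ a = a) (h2 : a ≫ e = a) (j : ℤ) :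
    tr _ (a ≫ G.pr X j) * tr _ e = tr _ (e ≫ G.pr X j) * tr _ a := by
  have := R.finite X
  obtain ⟨hea, hei, he0, hpr⟩ := he
  have hc := hea.pr_comm G j
  have hae : a.hom * e.hom = a.hom := congrArg ModuleCat.Hom.hom h1
  have hea' : e.hom * a.hom = a.hom := congrArg ModuleCat.Hom.hom h2
  have hee : e.hom * e.hom = e.hom := congrArg ModuleCat.Hom.hom hei
  have haS : a.hom ∈ algS R X := ha
  have heS : e.hom ∈ algS R X := hea
  have hcomm : a.hom * e.hom = e.hom * a.hom := by rw [hae, hea']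
  have hcp : ∀ p : K[X], Polynomial.aeval a.hom p * e.hom = e.hom * Polynomial.aeval a.hom p := by
    intro p
    have h3 : Commute e.hom a.hom := hcomm.symm
    exact ((Algebra.commute_of_mem_adjoin_singleton_of_commute
      (Polynomial.aeval_mem_adjoin_singleton K a.hom (p := p)) h3)).symm.eq
  have key := hT K (R.H.obj X) a.hom e.hom hee hcomm ?_ (e ≫ G.pr X j).hom
    (congrArg ModuleCat.Hom.hom (idem_pr G hea hei j)) ?_ ?_ ?_
  · have h4 : a.hom * (e ≫ G.pr X j).hom = (a ≫ G.pr X j).hom := by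
      have h5 : (e ≫ G.pr X j) ≫ a = a ≫ G.pr X j := by
        rw [Category.assoc, ← ha.pr_comm G, ← Category.assoc, h1]
      exact congrArg ModuleCat.Hom.hom h5
    rw [h4, hae] at key
    exact key
  · intro p hp
    have hm : Polynomial.aeval a.hom p * e.hom ∈ algS R X := (algS R X).mul_mem (aeval_mem haS p) heS
    have g1 : e ≫ ModuleCat.ofHom (Polynomial.aeval a.hom p * e.hom) =
        ModuleCat.ofHom (Polynomial.aeval a.hom p * e.hom) := by
      apply ModuleCat.hom_ext
      change (Polynomial.aeval a.hom p * e.hom) * e.hom = Polynomial.aeval a.hom p * e.hom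
      rw [mul_assoc, hee]
    have g2 : ModuleCat.ofHom (Polynomial.aeval a.hom p * e.hom) ≫ e =
        ModuleCat.ofHom (Polynomial.aeval a.hom p * e.hom) := by
      apply ModuleCat.hom_ext
      change e.hom * (Polynomial.aeval a.hom p * e.hom) = Polynomial.aeval a.hom p * e.hom
      rw [← mul_assoc, ← hcp, mul_assoc, hee]
    rcases hpr (ModuleCat.ofHom (Polynomial.aeval a.hom p * e.hom)) hm
      (ModuleCat.hom_ext hp) g1 g2 with h | h
    · exact Or.inl (congrArg ModuleCat.Hom.hom h)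
    · exact Or.inr (congrArg ModuleCat.Hom.hom h)
  · have h5 : (e ≫ G.pr X j) ≫ e = e ≫ G.pr X j := by
      rw [Category.assoc, ← hc, ← Category.assoc, hei]
    exact congrArg ModuleCat.Hom.hom h5
  · have h5 : e ≫ (e ≫ G.pr X j) = e ≫ G.pr X j := by
      rw [← Category.assoc, hei]
    exact congrArg ModuleCat.Hom.hom h5
  · have h5 : (e ≫ G.pr X j) ≫ a = a ≫ (e ≫ G.pr X j) := by
      rw [Category.assoc, ← ha.pr_comm G, ← Category.assoc, h1, ← Category.assoc, h2]
    exact congrArg ModuleCat.Hom.hom h5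

/-- The mean degree of a primitive idempotent. -/
lemma prim_mean (hT : S_TRP.{w}) {X : C} {e : R.H.obj X ⟶ R.H.obj X} (he : Prim R X e) :
    ∃ q : ℚ, Mean G X e (q : K) ∧ ∀ s : ℚ, ∃ i : ℤ, e ≫ G.pr X i ≠ 0 ∧ s * q ≤ s * i := by
  classical
  have := R.finite X
  have he' := he
  obtain ⟨hea, hei, he0, -⟩ := he'
  choose t ht ht0 using fun j : ℤ => tr_idem (R.finite X) _ (idem_pr G hea hei j)
  obtain ⟨T, hTr, hT0⟩ := tr_idem (R.finite X) e hei
  have hTne : T ≠ 0 := fun h => he0 (hT0 h)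
  have hTK : (T : K) ≠ 0 := by exact_mod_cast hTne
  have hTpos : (0 : ℚ) < T := by
    have := Nat.pos_of_ne_zero hTne
    exact_mod_cast this
  have hsum : (T : ℚ) = ∑ j ∈ G.supp X, (t j : ℚ) := by
    have h1 : (T : K) = ∑ j ∈ G.supp X, (t j : K) := by
      rw [← hTr, sum_tr G]
      exact Finset.sum_congr rfl fun j _ => ht j
    exact_mod_cast h1
  refine ⟨(∑ j ∈ G.supp X, (j : ℚ) * t j) / T, ?_, fun s => ?_⟩
  · intro a ha h1 h2
    have h3 : tr _ (a ≫ G.deg X) * T = (∑ j ∈ G.supp X, (j : K) * t j) * tr _ a := by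
      rw [sum_deg G, Finset.sum_mul, Finset.sum_mul]
      refine Finset.sum_congr rfl fun j _ => ?_
      have h4 := prim_trace G hT he ha h1 h2 j
      rw [hTr, ht j] at h4
      linear_combination (j : K) * h4
    push_cast
    field_simp
    linear_combination h3
  · by_contra hcon
    push Not at hcon
    have hmul : (s * ((∑ j ∈ G.supp X, (j : ℚ) * t j) / T)) * T =
        ∑ j ∈ G.supp X, s * (j : ℚ) * t j := by
      have h1 : ∑ j ∈ G.supp X, s * (j : ℚ) * t j = s * ∑ j ∈ G.supp X, (j : ℚ) * t j := by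
        rw [Finset.mul_sum]
        exact Finset.sum_congr rfl fun j _ => by ring
      rw [h1]
      field_simp
    have hlt : ∑ j ∈ G.supp X, s * (j : ℚ) * t j <
        ∑ j ∈ G.supp X, (s * ((∑ j ∈ G.supp X, (j : ℚ) * t j) / T)) * t j := by
      have hex : ∃ j ∈ G.supp X, t j ≠ 0 := by
        by_contra h5
        push Not at h5
        have h6 : (T : ℚ) = 0 := by
          rw [hsum]
          exact Finset.sum_eq_zero fun j hj => by rw [h5 j hj, Nat.cast_zero]
        exact hTpos.ne' h6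
      have hne : ∀ j, t j ≠ 0 → e ≫ G.pr X j ≠ 0 := by
        intro j htj h7
        apply htj
        have h8 : (t j : K) = 0 := by rw [← ht j, h7, map_zero]
        exact_mod_cast h8
      obtain ⟨j0, hj0, htj0⟩ := hex
      refine Finset.sum_lt_sum (fun j _ => ?_) ⟨j0, hj0, ?_⟩
      · by_cases htj : t j = 0
        · rw [htj, Nat.cast_zero, mul_zero, mul_zero]
        · exact mul_le_mul_of_nonneg_right (hcon j (hne j htj)).le (Nat.cast_nonneg _)
      · refine mul_lt_mul_of_pos_right (hcon j0 (hne j0 htj0)) ?_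
        have := Nat.pos_of_ne_zero htj0
        exact_mod_cast this
    rw [← Finset.mul_sum, ← hsum, hmul] at hlt
    exact lt_irrefl _ hlt

/-- The degrees of a primitive idempotent have the same parity. -/
lemma prim_par {X : C} (hp : Algebraic R ⊤ (R.par X)) {e : R.H.obj X ⟶ R.H.obj X}
    (he : Prim R X e) {i j : ℤ} (hi : e ≫ G.pr X i ≠ 0) (hj : e ≫ G.pr X j ≠ 0) :
    (Even i ↔ Even j) := by
  obtain ⟨hea, hei, he0, hpr⟩ := he
  have h2 : ((2 : ℚ) : K) ≠ 0 := by
    rw [Ne, Rat.cast_eq_zero]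
    norm_num
  have hcomm : e ≫ R.par X = R.par X ≫ e := hea.par_comm
  set h : R.H.obj X ⟶ R.H.obj X := (((1 / 2 : ℚ) : ℚ) : K) • (𝟙 _ + R.par X) with hh
  have hha : Algebraic R ⊤ h := ((Algebraic.one X).add hp).rat _
  have hhi : h ≫ h = h := by
    rw [hh, Linear.smul_comp, Linear.comp_smul, smul_smul, Preadditive.add_comp,
      Preadditive.comp_add, Preadditive.comp_add, Category.id_comp, Category.comp_id,
      Category.id_comp, R.par_sq]
    have h3 : (𝟙 _ + R.par X + (R.par X + 𝟙 (R.H.obj X))) = (2 : K) • (𝟙 _ + R.par X) := by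
      rw [two_smul]
      abel
    rw [h3, smul_smul]
    congr 1
    push_cast
    field_simp
  have hhe : e ≫ h = h ≫ e := by
    rw [hh, Linear.smul_comp, Linear.comp_smul, Preadditive.add_comp, Preadditive.comp_add,
      Category.id_comp, Category.comp_id, hcomm]
  have hev : ∀ j, Even j → h ≫ G.pr X j = G.pr X j := by
    intro j hj
    have h4 : G.pr X j ≫ h = G.pr X j := by
      rw [hh, Linear.comp_smul, Preadditive.comp_add, Category.comp_id, G.even X j hj, ← two_smul K,
        smul_smul]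
      push_cast
      rw [one_div, inv_mul_cancel₀ two_ne_zero, one_smul]
    rw [hha.pr_comm G, h4]
  have hod : ∀ j, ¬ Even j → h ≫ G.pr X j = 0 := by
    intro j hj
    have h4 : G.pr X j ≫ h = 0 := by
      rw [hh, Linear.comp_smul, Preadditive.comp_add, Category.comp_id,
        G.odd X j (Int.not_even_iff_odd.mp hj), add_neg_cancel, smul_zero]
    rw [hha.pr_comm G, h4]
  have hsub := hpr (e ≫ h) (hea.comp hha) (by
    rw [Category.assoc, ← Category.assoc h, ← hhe, Category.assoc, hhi, ← Category.assoc, hei])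
    (by rw [← Category.assoc, hei]) (by rw [Category.assoc, ← hhe, ← Category.assoc, hei])
  have key : ∀ j, e ≫ G.pr X j ≠ 0 → (Even j ↔ e ≫ h = e) := by
    intro j hj
    constructor
    · intro hj2
      rcases hsub with h5 | h5
      · exfalso
        apply hj
        rw [← hev j hj2, ← Category.assoc, h5, zero_comp]
      · exact h5
    · intro h5
      by_contra hj2
      apply hj
      rw [← h5, Category.assoc, hod j hj2, comp_zero]
  rw [key i hi, key j hj]

/-- If all primitive idempotents are in one degree, the conjecture holds. -/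
lemma C_of_prim (hM : S_MIN.{w}) {X : C}
    (h : ∀ e, Prim R X e → ∃ d : ℤ, ∀ j, j ≠ d → e ≫ G.pr X j = 0) : G.KunnethC ⊤ X := by
  have key : ∀ (n : ℕ) (p : R.H.obj X ⟶ R.H.obj X), Algebraic R ⊤ p → p ≫ p = p →
      (∀ j, Algebraic R ⊤ (p ≫ G.pr X j)) → tr _ (𝟙 _ - p) = (n : K) → G.KunnethC ⊤ X := by
    intro n
    induction n using Nat.strong_induction_on with
    | _ n ih =>
      intro p hp hpi hpj hn
      have hqi : (𝟙 _ - p) ≫ (𝟙 _ - p) = 𝟙 _ - p := by
        rw [Preadditive.sub_comp, Preadditive.comp_sub, Preadditive.comp_sub, Category.id_comp,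
          Category.comp_id, Category.id_comp, hpi, sub_self, sub_zero]
      by_cases h0 : 𝟙 _ - p = 0
      · intro j
        have h1 := hpj j
        rw [← sub_eq_zero.mp h0, Category.id_comp] at h1
        exact h1
      obtain ⟨e, he, h1, h2⟩ := exists_prim hM ((Algebraic.one X).sub hp) hqi h0
      obtain ⟨d, hd⟩ := h e he
      obtain ⟨hea, hei, he0, -⟩ := he
      have hpe : p ≫ e = 0 := by
        rw [Preadditive.sub_comp, Category.id_comp] at h1
        exact sub_eq_self.mp h1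
      have hep : e ≫ p = 0 := by
        rw [Preadditive.comp_sub, Category.comp_id] at h2
        exact sub_eq_self.mp h2
      obtain ⟨T, hTr, hT0⟩ := tr_idem (R.finite X) e hei
      obtain ⟨S, hS, -⟩ := tr_idem (R.finite X) (𝟙 _ - (p + e)) (by
        simp only [Preadditive.sub_comp, Preadditive.comp_sub, Preadditive.add_comp,
          Preadditive.comp_add, Category.id_comp, Category.comp_id, hpi, hei, hpe, hep]
        abel)
      have hlt : S < n := by
        have h3 : (S : K) + T = n := by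
          rw [← hS, ← hTr, ← hn, ← map_add]
          congr 1
          abel
        have h4 : S + T = n := by exact_mod_cast h3
        have h5 : T ≠ 0 := fun h6 => he0 (hT0 h6)
        omega
      refine ih S hlt (p + e) (hp.add hea) ?_ (fun j => ?_) hS
      · simp only [Preadditive.add_comp, Preadditive.comp_add, hpi, hei, hpe, hep, add_zero,
          zero_add]
      · rw [Preadditive.add_comp]
        refine (hpj j).add ?_
        by_cases hj : j = d
        · subst hj
          have h6 : e ≫ G.pr X j = e := by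
            by_cases hs : j ∈ G.supp X
            · conv_rhs => rw [← Category.comp_id e, ← G.sum_supp X, Preadditive.comp_sum]
              rw [Finset.sum_eq_single_of_mem j hs fun l _ hl => hd l hl]
            · exfalso
              apply he0
              rw [← Category.comp_id e, ← G.sum_supp X, Preadditive.comp_sum]
              refine Finset.sum_eq_zero fun l hl => hd l ?_
              rintro rfl
              exact hs hl
          rw [h6]
          exact hea
        · rw [hd j hj]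
          exact Algebraic.zero X X
  obtain ⟨S, hS, -⟩ := tr_idem (R.finite X) (𝟙 _ - (0 : R.H.obj X ⟶ R.H.obj X)) (by
    rw [sub_zero, Category.comp_id])
  exact key S 0 (Algebraic.zero X X) comp_zero (fun j => by
    rw [zero_comp]; exact Algebraic.zero X X) hS

/-- The powers of an idempotent. -/
lemma power {A B : C} (hpA : Algebraic R ⊤ (R.par A)) (hpB : Algebraic R ⊤ (R.par B))
    {e0 : R.H.obj A ⟶ R.H.obj A} {e : R.H.obj B ⟶ R.H.obj B} (he0 : Algebraic R ⊤ e0)
    (he : Algebraic R ⊤ e) (hi0 : e0 ≫ e0 = e0) (hi : e ≫ e = e) {q0 q : ℚ} {i0 i : ℤ}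
    (hm0 : Mean G A e0 (q0 : K)) (hm : Mean G B e (q : K)) (hn0 : e0 ≫ G.pr A i0 ≠ 0)
    (hn : e ≫ G.pr B i ≠ 0) (m : ℕ) :
    Algebraic R ⊤ (R.par (prodPow A B m)) ∧
    ∃ E : R.H.obj (prodPow A B m) ⟶ R.H.obj (prodPow A B m), Algebraic R ⊤ E ∧ E ≫ E = E ∧
      Mean G _ E ((q0 + m * q : ℚ) : K) ∧ E ≫ G.pr _ (i0 + m * i) ≠ 0 := by
  induction m with
  | zero =>
    refine ⟨hpA, e0, he0, hi0, ?_, ?_⟩
    · rw [Nat.cast_zero, zero_mul, add_zero]
      exact hm0
    · rw [Nat.cast_zero, zero_mul, add_zero]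
      exact hn0
  | succ m ih =>
    obtain ⟨h1, E, hE, hEi, hEm, hEn⟩ := ih
    refine ⟨par_alg h1 hpB, bx R E e, Algebraic.bx hE he, ?_, ?_, ?_⟩
    · rw [bx_comp, hEi, hi]
    · have h2 := mean_bx G h1 hpB hE he hEi hi hEm hm
      have h3 : ((q0 + (m + 1 : ℕ) * q : ℚ) : K) = ((q0 + m * q : ℚ) : K) + (q : K) := by
        push_cast
        ring
      rw [h3]
      exact h2
    · have h2 := bx_pr_ne G hE he hEi hi hEn hn
      have h3 : i0 + ((m + 1 : ℕ) : ℤ) * i = i0 + m * i + i := by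
        push_cast
        ring
      rw [h3]
      exact h2

/-- **Far apart degrees.** -/
theorem core (hT : S_TRP.{w}) (hF : S_FIT.{w}) (hM : S_MIN.{w}) {A B : C}
    (hA : ¬ IsZero (R.H.obj A)) (hpA : Algebraic R ⊤ (R.par A)) (hpB : Algebraic R ⊤ (R.par B))
    (m : ℕ) (h : ∀ k l : ℤ, (m : ℤ) ≤ k - l → Sep G (prodPow A B m) k l) :
    G.KunnethC ⊤ B := by
  by_contra hC
  have h1 : ∃ e, Prim R B e ∧ ∀ d : ℤ, ∃ j, j ≠ d ∧ e ≫ G.pr B j ≠ 0 := by
    by_contra h2
    push Not at h2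
    exact hC (C_of_prim G hM fun e he => h2 e he)
  obtain ⟨e, he, hd⟩ := h1
  obtain ⟨j0, -, hj0⟩ := hd 0
  obtain ⟨j1, hj10, hj1⟩ := hd j0
  have hpar := prim_par G hpB he hj0 hj1
  -- two degrees of distance at least two
  obtain ⟨a, b, ha, hb, hab⟩ : ∃ a b : ℤ, e ≫ G.pr B a ≠ 0 ∧ e ≫ G.pr B b ≠ 0 ∧ a + 2 ≤ b := by
    rcases lt_or_gt_of_ne hj10 with h3 | h3
    · refine ⟨j1, j0, hj1, hj0, ?_⟩
      have h4 : j0 ≠ j1 + 1 := by
        rintro rfl
        rw [Int.even_add_one] at hpar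
        tauto
      omega
    · refine ⟨j0, j1, hj0, hj1, ?_⟩
      have h4 : j1 ≠ j0 + 1 := by
        rintro rfl
        rw [Int.even_add_one] at hpar
        tauto
      omega
  obtain ⟨q, hm, -⟩ := prim_mean G hT he
  obtain ⟨s, i, hs, hi, hsi⟩ : ∃ (s : ℚ) (i : ℤ), (s = 1 ∨ s = -1) ∧ e ≫ G.pr B i ≠ 0 ∧
      1 ≤ s * ((i : ℚ) - q) := by
    have h3 : (a : ℚ) + 2 ≤ b := by exact_mod_cast hab
    by_cases h4 : (1 : ℚ) ≤ b - q
    · exact ⟨1, b, Or.inl rfl, hb, by linarith⟩
    · exact ⟨-1, a, Or.inr rfl, ha, by linarith⟩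
  have h3 : (𝟙 (R.H.obj A)) ≠ 0 := fun h4 => hA ((IsZero.iff_id_eq_zero _).mpr h4)
  obtain ⟨e0, he0, -, -⟩ := exists_prim hM (Algebraic.one A) (Category.comp_id _) h3
  obtain ⟨q0, hm0, hq0⟩ := prim_mean G hT he0
  obtain ⟨i0, hn0, hqi0⟩ := hq0 s
  obtain ⟨-, E, hE, hEi, hEm, hEn⟩ := power G hpA hpB he0.1 he.1 he0.2.1 he.2.1 hm0 hm hn0 hi m
  refine contra G hF hE hEi hEm hEn s fun l hl => ?_
  have h5 : (m : ℚ) ≤ s * ((i0 + m * i : ℚ) - l) := by
    have h7 : (0 : ℚ) ≤ m := Nat.cast_nonneg _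
    have h6 : (m : ℚ) ≤ m * (s * ((i : ℚ) - q)) := by nlinarith
    calc (m : ℚ) ≤ m * (s * ((i : ℚ) - q)) := h6
      _ ≤ m * (s * ((i : ℚ) - q)) + (s * i0 - s * q0) + (s * (q0 + m * q) - s * l) := by
          linarith
      _ = s * ((i0 + m * i : ℚ) - l) := by ring
  rcases hs with rfl | rfl
  · refine h _ _ ?_
    rw [one_mul] at h5
    exact_mod_cast h5
  · refine Sep.symm G (h _ _ ?_)
    have h8 : (m : ℚ) ≤ (l : ℚ) - (i0 + m * i : ℚ) := by linarith
    exact_mod_cast h8

end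

end Pool.Agent.K3h14.FD
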