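import Pool.Agent.K3h14.FD.Stm2

/-!
# The gap of an object
-/

set_option autoImplicit false

open CategoryTheory Limits MonoidalCategory
open Pool.Agent.Y112.SR Pool.Agent.Y112.KD Pool.Agent.Y112.SC Pool.Agent.K3h63.CC

namespace Pool.Agent.K3h14.FD

universe v u w

variable {C : Type u} [Category.{v} C] [Preadditive C] [MonoidalCategory C] [SymmetricCategory C]
  {K : Type w} [Field K] {R : SuperRealisation C K} (G : Grading R)

/-- The gap of `X`: the least natural number `N` such that all degrees of `X` at distance more than
`N` are separated. -/
noncomputable def gap (X : C) : ℕ := sInf {N : ℕ | Gap G X N}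

end Pool.Agent.K3h14.FD
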