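import Pool.Agent.K3h14.FD.Core
import Pool.Agent.K3h14.FD.Gap

/-!
# The gap of an object: assembly
-/

set_option autoImplicit false
set_option linter.unusedSectionVars false
set_option linter.unusedSimpArgs false
set_option backward.isDefEq.respectTransparency false
set_option backward.defeqAttrib.useBackward true

open CategoryTheory Limits MonoidalCategory
open Pool.Agent.Y112.SR Pool.Agent.Y112.KD Pool.Agent.Y112.SC Pool.Agent.K3h63.CC

namespace Pool.Agent.K3h14.FD

universe v u w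

section

variable {C : Type u} [Category.{v} C] [Preadditive C] [Linear ℚ C] [MonoidalCategory C]
  [MonoidalPreadditive C] [MonoidalLinear ℚ C] [SymmetricCategory C]
  [RightRigidCategory C] {K : Type w} [Field K] [CharZero K] {R : SuperRealisation C K}
  (G : Grading R)

lemma sep_of_zero {X : C} {k l : ℤ} (h : G.pr X k = 0 ∨ G.pr X l = 0) : Sep G X k l := by
  rcases h with h | h
  · exact ⟨0, Algebraic.zero X X, by rw [h, zero_comp], by rw [comp_zero]⟩
  · exact ⟨𝟙 _, Algebraic.one X, Category.comp_id _, by rw [h, zero_comp]⟩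

lemma Gap.mono {X : C} {M N : ℕ} (h : Gap G X M) (hMN : M ≤ N) : Gap G X N :=
  fun k l hkl => h k l (lt_of_le_of_lt (by exact_mod_cast hMN) hkl)

lemma gap_nonempty (X : C) : {N : ℕ | Gap G X N}.Nonempty := by
  classical
  obtain ⟨a, ha⟩ := (G.supp X).bddAbove
  obtain ⟨b, hb⟩ := (G.supp X).bddBelow
  refine ⟨(a - b).toNat, fun k l hkl => sep_of_zero G ?_⟩
  by_contra hcon
  rw [not_or] at hcon
  have hk : k ∈ G.supp X := by
    by_contra h
    exact hcon.1 (G.pr_zero h)
  have hl : l ∈ G.supp X := by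
    by_contra h
    exact hcon.2 (G.pr_zero h)
  have h1 : k ≤ a := ha (by exact_mod_cast hk)
  have h2 : b ≤ l := hb (by exact_mod_cast hl)
  have h3 := Int.self_le_toNat (a - b)
  omega

lemma gap_spec (X : C) : Gap G X (gap G X) := Nat.sInf_mem (gap_nonempty G X)

lemma gap_le_iff {X : C} {N : ℕ} : gap G X ≤ N ↔ Gap G X N :=
  ⟨fun h => (gap_spec G X).mono G h, fun h => Nat.sInf_le h⟩

/-- The conjecture means that the gap is zero. -/
lemma C_iff_gap (X : C) : G.KunnethC ⊤ X ↔ gap G X = 0 := by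
  classical
  rw [← Nat.le_zero, gap_le_iff]
  constructor
  · intro h k l hkl
    refine ⟨G.pr X k, h k, G.idem X k, G.orth X l k ?_⟩
    rintro rfl
    simp at hkl
  · intro h i
    have h1 : ∀ l, l ≠ i → Sep G X i l := by
      intro l hl
      rcases lt_or_gt_of_ne hl with h2 | h2
      · exact h i l (by push_cast; omega)
      · exact Sep.symm G (h l i (by push_cast; omega))
    obtain ⟨F, hF, hi, hl⟩ := sep_prod G (k := i) ((G.supp X).erase i)
      fun l hl => h1 l (Finset.ne_of_mem_erase hl)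
    have h2 : F = G.pr X i := by
      apply G.ext
      intro j hj
      by_cases hji : j = i
      · subst hji
        rw [hi, G.idem]
      · rw [G.orth X j i hji]
        by_cases hjs : j ∈ G.supp X
        · exact hl j (Finset.mem_erase.mpr ⟨hji, hjs⟩)
        · rw [G.pr_zero hjs, zero_comp]
    rw [← h2]
    exact hF

/-- Degrees of different parity are separated if the sign conjecture holds. -/
lemma sep_par {X : C} (hp : Algebraic R ⊤ (R.par X)) {k l : ℤ} (h : k = l + 1) :
    Sep G X k l := by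
  have h2 : (2 : K) ≠ 0 := two_ne_zero
  have hhalf : ((1 / 2 : ℚ) : K) * 2 = 1 := by
    push_cast
    field_simp
  rcases Int.even_or_odd k with hk | hk
  · have hl : Odd l := by
      subst h
      rwa [Int.even_add_one, Int.not_even_iff_odd] at hk
    refine ⟨((1 / 2 : ℚ) : K) • (𝟙 _ + R.par X), ((Algebraic.one X).add hp).rat _, ?_, ?_⟩
    · rw [Linear.comp_smul, Preadditive.comp_add, Category.comp_id, G.even X k hk, ← two_smul K,
        smul_smul, hhalf, one_smul]
    · rw [Linear.comp_smul, Preadditive.comp_add, Category.comp_id, G.odd X l hl, add_neg_cancel,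
        smul_zero]
  · have hl : Even l := by
      subst h
      by_contra h3
      rw [Int.not_even_iff_odd] at h3
      exact (Int.not_odd_iff_even.mpr h3.add_one) hk
    refine ⟨((1 / 2 : ℚ) : K) • (𝟙 _ - R.par X), ((Algebraic.one X).sub hp).rat _, ?_, ?_⟩
    · rw [Linear.comp_smul, Preadditive.comp_sub, Category.comp_id, G.odd X k hk, sub_neg_eq_add,
        ← two_smul K, smul_smul, hhalf, one_smul]
    · rw [Linear.comp_smul, Preadditive.comp_sub, Category.comp_id, G.even X l hl, sub_self,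
        smul_zero]

lemma C_iff_gap_one {X : C} (hp : Algebraic R ⊤ (R.par X)) : G.KunnethC ⊤ X ↔ gap G X ≤ 1 := by
  rw [C_iff_gap]
  constructor
  · intro h
    omega
  · intro h
    rw [← Nat.le_zero, gap_le_iff]
    rw [gap_le_iff] at h
    intro k l hkl
    push_cast at hkl
    by_cases h1 : k = l + 1
    · exact sep_par G hp h1
    · exact h k l (by push_cast; omega)

/-- Dominated objects. -/
lemma gap_dom {X : C} {𝒴 : Set C} {N : ℕ} (h : DomBy (R := R) 𝒴 X)
    (hY : ∀ Y ∈ 𝒴, Gap G Y N) : Gap G X N := by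
  obtain ⟨n, Y, φ, ψ, hY', hφ, hψ, hs⟩ := h
  intro k l hkl
  choose f hf hfk hfl using fun i => hY (Y i) (hY' i) k l hkl
  refine ⟨∑ i, φ i ≫ f i ≫ ψ i,
    Algebraic.sum _ fun i _ => (hφ i).comp ((hf i).comp (hψ i)), ?_, ?_⟩
  · rw [Preadditive.comp_sum]
    have h1 : ∀ i, G.pr X k ≫ φ i ≫ f i ≫ ψ i = G.pr X k ≫ φ i ≫ ψ i := by
      intro i
      rw [← Category.assoc, ← (hφ i).pr_comm G, Category.assoc, ← Category.assoc (G.pr _ k),
        hfk i, ← Category.assoc, (hφ i).pr_comm G, Category.assoc]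
    rw [Finset.sum_congr rfl fun i _ => h1 i, ← Preadditive.comp_sum, hs, Category.comp_id]
  · rw [Preadditive.comp_sum]
    refine Finset.sum_eq_zero fun i _ => ?_
    rw [← Category.assoc, ← (hφ i).pr_comm G, Category.assoc, ← Category.assoc (G.pr _ l),
      hfl i, zero_comp, comp_zero]

/-- Degrees which are not separated occur together in a primitive idempotent. -/
lemma exists_pair (hM : S_MIN.{w}) {X : C} {k l : ℤ} (h : ¬ Sep G X k l) :
    ∃ e, Prim R X e ∧ e ≫ G.pr X k ≠ 0 ∧ e ≫ G.pr X l ≠ 0 := by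
  by_contra hcon
  push Not at hcon
  have key : ∀ (n : ℕ) (p f : R.H.obj X ⟶ R.H.obj X), Algebraic R ⊤ p → p ≫ p = p →
      Algebraic R ⊤ f → G.pr X k ≫ f = G.pr X k ≫ p → G.pr X l ≫ f = 0 →
      tr _ (𝟙 _ - p) = (n : K) → Sep G X k l := by
    intro n
    induction n using Nat.strong_induction_on with
    | _ n ih =>
      intro p f hp hpi hf hfk hfl hn
      have hqi : (𝟙 _ - p) ≫ (𝟙 _ - p) = 𝟙 _ - p := by
        rw [Preadditive.sub_comp, Preadditive.comp_sub, Preadditive.comp_sub, Category.id_comp,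
          Category.comp_id, Category.id_comp, hpi, sub_self, sub_zero]
      by_cases h0 : 𝟙 _ - p = 0
      · refine ⟨f, hf, ?_, hfl⟩
        rw [hfk, ← sub_eq_zero.mp h0, Category.comp_id]
      obtain ⟨e, he, h1, h2⟩ := exists_prim hM ((Algebraic.one X).sub hp) hqi h0
      have hd := hcon e he
      obtain ⟨hea, hei, he0, -⟩ := he
      have hpe : p ≫ e = 0 := by
        rw [Preadditive.sub_comp, Category.id_comp] at h1
        exact sub_eq_self.mp h1
      have hep : e ≫ p = 0 := by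
        rw [Preadditive.comp_sub, Category.comp_id] at h2
        exact sub_eq_self.mp h2
      obtain ⟨T, hTr, hT0⟩ := tr_idem (R.finite X) e hei
      obtain ⟨S, hS, -⟩ := tr_idem (R.finite X) (𝟙 _ - (p + e)) (by
        simp only [Preadditive.sub_comp, Preadditive.comp_sub, Preadditive.add_comp,
          Preadditive.comp_add, Category.id_comp, Category.comp_id, hpi, hei, hpe, hep]
        abel)
      have hlt : S < n := by
        have h3 : (S : K) + T = n := by
          rw [← hS, ← hTr, ← hn, ← map_add]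
          congr 1
          abel
        have h4 : S + T = n := by exact_mod_cast h3
        have h5 : T ≠ 0 := fun h6 => he0 (hT0 h6)
        omega
      have hpei : (p + e) ≫ (p + e) = p + e := by
        simp only [Preadditive.add_comp, Preadditive.comp_add, hpi, hei, hpe, hep, add_zero,
          zero_add]
      by_cases hek : e ≫ G.pr X k = 0
      · refine ih S hlt (p + e) f (hp.add hea) hpei hf ?_ hfl hS
        rw [Preadditive.comp_add, ← hea.pr_comm G, hek, add_zero, hfk]
      · refine ih S hlt (p + e) (f + e) (hp.add hea) hpei (hf.add hea) ?_ ?_ hS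
        · rw [Preadditive.comp_add, Preadditive.comp_add, hfk]
        · rw [Preadditive.comp_add, hfl, ← hea.pr_comm G, hd hek, add_zero]
  obtain ⟨S, hS, -⟩ := tr_idem (R.finite X) (𝟙 _ - (0 : R.H.obj X ⟶ R.H.obj X)) (by
    rw [sub_zero, Category.comp_id])
  exact h (key S 0 0 (Algebraic.zero X X) comp_zero (Algebraic.zero X X)
    rfl comp_zero hS)

/-- The gap grows linearly. -/
theorem growth (hT : S_TRP.{w}) (hF : S_FIT.{w}) (hM : S_MIN.{w}) {A B : C}
    (hA : ¬ IsZero (R.H.obj A)) (hpA : Algebraic R ⊤ (R.par A)) (hpB : Algebraic R ⊤ (R.par B))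
    (m : ℕ) : m * gap G B ≤ 2 * gap G (prodPow A B m) := by
  by_contra hcon
  rw [not_le] at hcon
  set N := gap G (prodPow A B m) with hN
  have hgN : Gap G (prodPow A B m) N := gap_spec G _
  have hg0 : 1 ≤ gap G B := by
    by_contra h
    have : gap G B = 0 := by omega
    rw [this, mul_zero] at hcon
    omega
  have hnot : ¬ Gap G B (gap G B - 1) := by
    rw [← gap_le_iff]
    omega
  unfold Gap at hnot
  push Not at hnot
  obtain ⟨k, l, hkl, hsep⟩ := hnot
  have hkl' : (gap G B : ℤ) ≤ k - l := by omega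
  obtain ⟨e, he, hek, hel⟩ := exists_pair G hM hsep
  obtain ⟨q, hm, -⟩ := prim_mean G hT he
  have hklq : (gap G B : ℚ) ≤ (k : ℚ) - l := by exact_mod_cast hkl'
  obtain ⟨s, i, hs, hi, hsi⟩ : ∃ (s : ℚ) (i : ℤ), (s = 1 ∨ s = -1) ∧ e ≫ G.pr B i ≠ 0 ∧
      (gap G B : ℚ) ≤ 2 * (s * ((i : ℚ) - q)) := by
    by_cases h4 : (gap G B : ℚ) ≤ 2 * (k - q)
    · exact ⟨1, k, Or.inl rfl, hek, by linarith⟩
    · exact ⟨-1, l, Or.inr rfl, hel, by linarith⟩
  have h3 : (𝟙 (R.H.obj A)) ≠ 0 := fun h4 => hA ((IsZero.iff_id_eq_zero _).mpr h4)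
  obtain ⟨e0, he0, -, -⟩ := exists_prim hM (Algebraic.one A) (Category.comp_id _) h3
  obtain ⟨q0, hm0, hq0⟩ := prim_mean G hT he0
  obtain ⟨i0, hn0, hqi0⟩ := hq0 s
  obtain ⟨-, E, hE, hEi, hEm, hEn⟩ := power G hpA hpB he0.1 he.1 he0.2.1 he.2.1 hm0 hm hn0 hi m
  refine contra G hF hE hEi hEm hEn s fun l' hl' => ?_
  have h5 : (N : ℚ) < s * ((i0 + m * i : ℚ) - l') := by
    have h7 : (0 : ℚ) ≤ m := Nat.cast_nonneg _
    have h6 : (m : ℚ) * gap G B ≤ m * (2 * (s * ((i : ℚ) - q))) :=
      mul_le_mul_of_nonneg_left hsi h7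
    have h8 : (2 : ℚ) * N < m * gap G B := by exact_mod_cast hcon
    have h9 : s * ((i0 + m * i : ℚ) - l') = m * (s * ((i : ℚ) - q)) + (s * i0 - s * q0) +
        (s * (q0 + m * q) - s * l') := by ring
    rw [h9]
    linarith
  rcases hs with rfl | rfl
  · refine hgN _ _ ?_
    rw [one_mul] at h5
    exact_mod_cast h5
  · refine Sep.symm G (hgN _ _ ?_)
    have h8 : (N : ℚ) < (l' : ℚ) - (i0 + m * i : ℚ) := by linarith
    exact_mod_cast h8

lemma gap_unit : gap G (𝟙_ C) = 0 := by
  rw [← C_iff_gap]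
  intro i
  by_cases hi : i = 0
  · subst hi
    rw [G.unit]
    exact Algebraic.one _
  · have h : G.pr (𝟙_ C) i = 0 := by
      rw [← Category.comp_id (G.pr (𝟙_ C) i), ← G.unit, G.orth _ _ _ hi]
    rw [h]
    exact Algebraic.zero _ _

lemma gap_ten (hG : S_GTEN.{v, u, w}) (X Y : C) : gap G (X ⊗ Y) ≤ gap G X + gap G Y := by
  rw [gap_le_iff]
  exact hG G X Y _ _ (gap_spec G X) (gap_spec G Y)

lemma gap_pow (hG : S_GTEN.{v, u, w}) (A B : C) (m : ℕ) :
    gap G (prodPow A B m) ≤ gap G A + m * gap G B := by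
  induction m with
  | zero =>
    rw [zero_mul, add_zero]
    exact le_rfl
  | succ m ih =>
    have h := gap_ten G hG (prodPow A B m) B
    have h1 : gap G (prodPow A B (m + 1)) = gap G (prodPow A B m ⊗ B) := rfl
    rw [h1, Nat.succ_mul]
    omega

/-- Homogeneous integral dependence. -/
theorem integral (hT : S_TRP.{w}) (hF : S_FIT.{w}) (hM : S_MIN.{w}) (hG : S_GTEN.{v, u, w})
    (hH : S_HDOM.{v, u, w}) {A B : C}
    (hA : ¬ IsZero (R.H.obj A)) (hpA : Algebraic R ⊤ (R.par A)) (hpB : Algebraic R ⊤ (R.par B))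
    (n : ℕ) (c : ℚ) (hn : 1 ≤ n) (hc : 0 ≤ c)
    (h : DomBy (R := R) {Y | ∃ j < n, ∃ T, (gap G T : ℚ) ≤ c * (n - j) ∧ Y = prodPow A B j ⊗ T}
      (prodPow A B n)) : (gap G B : ℚ) ≤ 2 * c := by
  classical
  have h1 := hH (R := R) A B n (fun i => {T | (gap G T : ℚ) ≤ c * i}) hn
    (by
      change (gap G (𝟙_ C) : ℚ) ≤ c * (0 : ℕ)
      rw [gap_unit, Nat.cast_zero, mul_zero])
    (fun i j T T' hT hT' => by
      change (gap G (T ⊗ T') : ℚ) ≤ c * ((i + j : ℕ) : ℚ)
      change (gap G T : ℚ) ≤ c * i at hT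
      change (gap G T' : ℚ) ≤ c * j at hT'
      have h2 : (gap G (T ⊗ T') : ℚ) ≤ gap G T + gap G T' := by
        exact_mod_cast gap_ten G hG T T'
      push_cast
      linarith)
    (by
      obtain ⟨N, Y, φ, ψ, hY, hφ, hψ, hs⟩ := h
      refine ⟨N, Y, φ, ψ, fun i => ?_, hφ, hψ, hs⟩
      obtain ⟨j, hj, T, hT, hYT⟩ := hY i
      refine ⟨j, hj, T, ?_, hYT⟩
      change (gap G T : ℚ) ≤ c * ((n - j : ℕ) : ℚ)
      rw [Nat.cast_sub hj.le]
      exact hT)
  set M := ∑ j ∈ Finset.range n, gap G (prodPow A B j) with hM'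
  have h2 : ∀ m : ℕ, (m : ℚ) * gap G B ≤ 2 * (M + c * m) := by
    intro m
    have h3 : gap G (prodPow A B m) ≤ ⌊(M : ℚ) + c * m⌋₊ := by
      rw [gap_le_iff]
      refine gap_dom G (h1 m) ?_
      rintro Y ⟨j, hj, hjm, T, hT, rfl⟩
      rw [← gap_le_iff]
      refine Nat.le_floor ?_
      change (gap G T : ℚ) ≤ c * ((m - j : ℕ) : ℚ) at hT
      have h4 : (gap G (prodPow A B j ⊗ T) : ℚ) ≤ gap G (prodPow A B j) + gap G T := by
        exact_mod_cast gap_ten G hG _ T
      have h5 : gap G (prodPow A B j) ≤ M :=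
        Finset.single_le_sum (f := fun j => gap G (prodPow A B j)) (fun _ _ => Nat.zero_le _)
          (Finset.mem_range.mpr hj)
      have h6 : (gap G (prodPow A B j) : ℚ) ≤ M := by exact_mod_cast h5
      have h7 : ((m - j : ℕ) : ℚ) ≤ m := by exact_mod_cast Nat.sub_le m j
      have h8 : c * ((m - j : ℕ) : ℚ) ≤ c * m := mul_le_mul_of_nonneg_left h7 hc
      linarith
    have h4 : (m : ℚ) * gap G B ≤ 2 * gap G (prodPow A B m) := by
      exact_mod_cast growth G hT hF hM hA hpA hpB m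
    have h5 : (gap G (prodPow A B m) : ℚ) ≤ (M : ℚ) + c * m := by
      have h6 : (0 : ℚ) ≤ (M : ℚ) + c * m := by positivity
      exact (Nat.le_floor_iff h6).mp h3
    linarith
  by_contra hcon
  rw [not_le] at hcon
  have hpos : 0 < (gap G B : ℚ) - 2 * c := by linarith
  obtain ⟨m, hm⟩ := exists_nat_gt (2 * (M : ℚ) / ((gap G B : ℚ) - 2 * c))
  rw [div_lt_iff₀ hpos] at hm
  have h3 := h2 m
  nlinarith

/-- Characterisations of the conjecture. -/
theorem tfae (hT : S_TRP.{w}) (hF : S_FIT.{w}) (hM : S_MIN.{w}) (hG : S_GTEN.{v, u, w})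
    (hH : S_HDOM.{v, u, w}) {A B : C}
    (hA : ¬ IsZero (R.H.obj A)) (hpA : Algebraic R ⊤ (R.par A)) (hpB : Algebraic R ⊤ (R.par B)) :
    List.TFAE [G.KunnethC ⊤ B,
      ∃ m : ℕ, gap G (prodPow A B m) < m,
      ∀ m : ℕ, gap G (prodPow A B m) ≤ gap G A,
      ∃ n : ℕ, 1 ≤ n ∧ DomBy (R := R)
        {Y | ∃ j < n, ∃ T, gap G T < n - j ∧ Y = prodPow A B j ⊗ T} (prodPow A B n)] := by
  tfae_have 1 → 3 := by
    intro h m
    have h1 := gap_pow G hG A B m
    rw [(C_iff_gap G B).mp h, mul_zero, add_zero] at h1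
    exact h1
  tfae_have 3 → 2 := by
    intro h
    exact ⟨gap G A + 1, Nat.lt_succ_of_le (h _)⟩
  tfae_have 2 → 1 := by
    rintro ⟨m, hm⟩
    rw [C_iff_gap_one G hpB]
    by_contra h
    have h1 := growth G hT hF hM hA hpA hpB m
    have h2 : m * 2 ≤ m * gap G B := Nat.mul_le_mul_left _ (by omega)
    omega
  tfae_have 1 → 4 := by
    intro h
    refine ⟨1, le_rfl, 1, fun _ => A ⊗ B, fun _ => 𝟙 _, fun _ => 𝟙 _, fun _ => ?_,
      fun _ => Algebraic.one _, fun _ => Algebraic.one _, ?_⟩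
    · refine ⟨0, Nat.one_pos, B, ?_, rfl⟩
      rw [(C_iff_gap G B).mp h]
      exact Nat.one_pos
    · rw [Fin.sum_univ_one, Category.comp_id]
  tfae_have 4 → 1 := by
    rintro ⟨n, hn, h⟩
    have hn0 : (0 : ℚ) < n := by exact_mod_cast hn
    have h1 : (gap G B : ℚ) ≤ 2 * (1 - 1 / n) := by
      refine integral G hT hF hM hG hH hA hpA hpB n (1 - 1 / n) hn ?_ ?_
      · rw [sub_nonneg, div_le_one hn0]
        exact_mod_cast hn
      · obtain ⟨N, Y, φ, ψ, hY, hφ, hψ, hs⟩ := h
        refine ⟨N, Y, φ, ψ, fun i => ?_, hφ, hψ, hs⟩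
        obtain ⟨j, hj, T, hT, hYT⟩ := hY i
        refine ⟨j, hj, T, ?_, hYT⟩
        have h2 : (gap G T : ℚ) + 1 ≤ n - j := by
          have h3 : gap G T + 1 + j ≤ n := by omega
          have h4 : (gap G T : ℚ) + 1 + j ≤ n := by exact_mod_cast h3
          linarith
        have h3 : ((n : ℚ) - j) / n ≤ 1 := by
          rw [div_le_one hn0]
          have : (0 : ℚ) ≤ j := Nat.cast_nonneg _
          linarith
        calc (gap G T : ℚ) ≤ (n - j) - 1 := by linarith
          _ ≤ (n - j) - ((n : ℚ) - j) / n := by linarith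
          _ = (1 - 1 / n) * (n - j) := by ring
    rw [C_iff_gap_one G hpB]
    have h2 : (gap G B : ℚ) < 2 := by
      have h3 : (0 : ℚ) < 1 / n := by positivity
      linarith
    have h3 : gap G B < 2 := by exact_mod_cast h2
    omega
  tfae_finish

end

end Pool.Agent.K3h14.FD
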