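import Pool.Agent.K3h63.CC.Main

/-!
# Far apart degrees and the Künneth type standard conjecture: definitions and statements of the parts
-/

set_option autoImplicit false

open CategoryTheory Limits MonoidalCategory
open Pool.Agent.Y112.SR Pool.Agent.Y112.KD Pool.Agent.Y112.SC Pool.Agent.K3h63.CC

namespace Pool.Agent.K3h14.FD

universe v u w

/-! ### Linear algebra -/

section

open Polynomial

/-- If `a` commutes with the idempotent `P` and the polynomials in `a` times `P` contain no other
idempotents than `0` and `P`, then the traces of `a` on the subspaces `Q V ⊆ P V` are proportional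
to the dimensions. -/
def S_TRP : Prop :=
  ∀ (K V : Type w) [Field K] [CharZero K] [AddCommGroup V] [Module K V] [Module.Finite K V]
    (a P : Module.End K V), P * P = P → a * P = P * a →
    (∀ p : K[X], (aeval a p * P) * (aeval a p * P) = aeval a p * P →
      aeval a p * P = 0 ∨ aeval a p * P = P) →
    ∀ Q : Module.End K V, Q * Q = Q → P * Q = Q → Q * P = Q → a * Q = Q * a →
      LinearMap.trace K V (a * Q) * LinearMap.trace K V P =
        LinearMap.trace K V Q * LinearMap.trace K V (a * P)

/-- Fitting: a polynomial in `x` without constant term which is idempotent and the identity where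
`x` is the identity. -/
def S_FIT : Prop :=
  ∀ (K V : Type w) [Field K] [AddCommGroup V] [Module K V] [Module.Finite K V]
    (x : Module.End K V), ∃ p : K[X], p.coeff 0 = 0 ∧ aeval x p * aeval x p = aeval x p ∧
      ∀ Q : Module.End K V, x * Q = Q → aeval x p * Q = Q

/-- Every nonzero idempotent of a subalgebra lies over a primitive one. -/
def S_MIN : Prop :=
  ∀ (K V : Type w) [Field K] [AddCommGroup V] [Module K V] [Module.Finite K V]
    (S : Subalgebra K (Module.End K V)), ∀ q ∈ S, q * q = q → q ≠ 0 →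
    ∃ e ∈ S, e * e = e ∧ e ≠ 0 ∧ q * e = e ∧ e * q = e ∧
      ∀ f ∈ S, f * f = f → e * f = f → f * e = f → f = 0 ∨ f = e

end

/-! ### Objects of a tensor category with a graded realisation -/

section

variable {C : Type u} [Category.{v} C] [Preadditive C] [MonoidalCategory C] [SymmetricCategory C]
  {K : Type w} [Field K] {R : SuperRealisation C K}

/-- The object `A ⊗ B ⊗ ... ⊗ B` with `n` factors `B`. -/
def prodPow (A B : C) : ℕ → C
  | 0 => A
  | n + 1 => prodPow A B n ⊗ B

variable (G : Grading R)

/-- The degrees `k` and `l` of `X` are separated: some `K`-linear combination of realisations of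
endomorphisms of `X` is the identity on `H^k X` and zero on `H^l X`. -/
def Sep (X : C) (k l : ℤ) : Prop :=
  ∃ f : R.H.obj X ⟶ R.H.obj X, Algebraic R ⊤ f ∧ G.pr X k ≫ f = G.pr X k ∧ G.pr X l ≫ f = 0

/-- `X` is dominated by finitely many objects `D i ⊗ T i`, where the `D i` belong to the class `𝒟`
and the `T i` satisfy the Künneth type standard conjecture: `H X` is a direct summand of the direct
sum of the `H (D i ⊗ T i)`, by `K`-linear combinations of realisations of morphisms. -/
def Dom (𝒟 : Set C) (X : C) : Prop :=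
  ∃ (n : ℕ) (D T : Fin n → C) (φ : ∀ i, R.H.obj X ⟶ R.H.obj (D i ⊗ T i))
    (ψ : ∀ i, R.H.obj (D i ⊗ T i) ⟶ R.H.obj X),
    (∀ i, D i ∈ 𝒟) ∧ (∀ i, G.KunnethC ⊤ (T i)) ∧ (∀ i, Algebraic R ⊤ (φ i)) ∧
      (∀ i, Algebraic R ⊤ (ψ i)) ∧ ∑ i, φ i ≫ ψ i = 𝟙 _

/-- `e` has mean degree `μ`: `tr (a deg) = μ tr a` for all algebraic `a = e a e`. -/
def Mean (X : C) (e : R.H.obj X ⟶ R.H.obj X) (μ : K) : Prop :=
  ∀ a : R.H.obj X ⟶ R.H.obj X, Algebraic R ⊤ a → e ≫ a = a → a ≫ e = a →
    tr _ (a ≫ G.deg X) = μ * tr _ a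

end

/-- Degrees of `D ⊗ T` whose distance is larger than the length of `D` are separated, if `T`
satisfies the Künneth type standard conjecture. -/
def S_SPD : Prop :=
  ∀ {C : Type u} [Category.{v} C] [Preadditive C] [Linear ℚ C] [MonoidalCategory C]
    [MonoidalPreadditive C] [MonoidalLinear ℚ C] [SymmetricCategory C] [RightRigidCategory C]
    {K : Type w} [Field K] [CharZero K] {R : SuperRealisation C K} (G : Grading R) (D T : C)
    (N : ℕ), (∀ i j : ℤ, G.pr D i ≠ 0 → G.pr D j ≠ 0 → i - j ≤ N) → G.KunnethC ⊤ T →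
    ∀ k l : ℤ, (N : ℤ) < k - l → Sep G (D ⊗ T) k l

/-- If `A ⊗ B ^ n` is dominated by the `A ⊗ B ^ j`, `j < n`, then all `A ⊗ B ^ m`, `m ≥ n`, are. -/
def S_DOM : Prop :=
  ∀ {C : Type u} [Category.{v} C] [Preadditive C] [Linear ℚ C] [MonoidalCategory C]
    [MonoidalPreadditive C] [MonoidalLinear ℚ C] [SymmetricCategory C] [RightRigidCategory C]
    {K : Type w} [Field K] [CharZero K] {R : SuperRealisation C K} (G : Grading R) (A B : C)
    (n : ℕ), 1 ≤ n → Dom G {D | ∃ j < n, D = prodPow A B j} (prodPow A B n) →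
    ∀ m, n ≤ m → Dom G {D | ∃ j < n, D = prodPow A B j} (prodPow A B m)

end Pool.Agent.K3h14.FD
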