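import Pool.Agent.K3h14.FD.Stm

/-!
# The gap of an object: definitions and statements of the parts
-/

set_option autoImplicit false

open CategoryTheory Limits MonoidalCategory
open Pool.Agent.Y112.SR Pool.Agent.Y112.KD Pool.Agent.Y112.SC Pool.Agent.K3h63.CC

namespace Pool.Agent.K3h14.FD

universe v u w

section

variable {C : Type u} [Category.{v} C] [Preadditive C] [MonoidalCategory C] [SymmetricCategory C]
  {K : Type w} [Field K] {R : SuperRealisation C K} (G : Grading R)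

/-- All degrees of `X` at distance more than `N` are separated. -/
def Gap (X : C) (N : ℕ) : Prop := ∀ k l : ℤ, (N : ℤ) < k - l → Sep G X k l

/-- `X` is dominated by finitely many objects of the class `𝒴`: `H X` is a direct summand of the
direct sum of the `H (Y i)`, by `K`-linear combinations of realisations of morphisms. -/
def DomBy (𝒴 : Set C) (X : C) : Prop :=
  ∃ (n : ℕ) (Y : Fin n → C) (φ : ∀ i, R.H.obj X ⟶ R.H.obj (Y i))
    (ψ : ∀ i, R.H.obj (Y i) ⟶ R.H.obj X),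
    (∀ i, Y i ∈ 𝒴) ∧ (∀ i, Algebraic R ⊤ (φ i)) ∧ (∀ i, Algebraic R ⊤ (ψ i)) ∧
      ∑ i, φ i ≫ ψ i = 𝟙 _

end

/-- The gap is subadditive. -/
def S_GTEN : Prop :=
  ∀ {C : Type u} [Category.{v} C] [Preadditive C] [Linear ℚ C] [MonoidalCategory C]
    [MonoidalPreadditive C] [MonoidalLinear ℚ C] [SymmetricCategory C] [RightRigidCategory C]
    {K : Type w} [Field K] [CharZero K] {R : SuperRealisation C K} (G : Grading R) (X Y : C)
    (M N : ℕ), Gap G X M → Gap G Y N → Gap G (X ⊗ Y) (M + N)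

/-- Homogeneous integral dependence: if `A ⊗ B ^ n` is dominated by objects `(A ⊗ B ^ j) ⊗ T` with
`j < n` and `T` in the class `𝒯 (n - j)`, then `A ⊗ B ^ m` is dominated by objects
`(A ⊗ B ^ j) ⊗ T` with `j < n`, `j ≤ m` and `T` in the class `𝒯 (m - j)`, for all `m`. -/
def S_HDOM : Prop :=
  ∀ {C : Type u} [Category.{v} C] [Preadditive C] [Linear ℚ C] [MonoidalCategory C]
    [MonoidalPreadditive C] [MonoidalLinear ℚ C] [SymmetricCategory C] [RightRigidCategory C]
    {K : Type w} [Field K] [CharZero K] {R : SuperRealisation C K} (A B : C)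
    (n : ℕ) (𝒯 : ℕ → Set C), 1 ≤ n → 𝟙_ C ∈ 𝒯 0 →
    (∀ i j T T', T ∈ 𝒯 i → T' ∈ 𝒯 j → T ⊗ T' ∈ 𝒯 (i + j)) →
    DomBy (R := R) {Y | ∃ j < n, ∃ T ∈ 𝒯 (n - j), Y = prodPow A B j ⊗ T} (prodPow A B n) →
    ∀ m, DomBy (R := R) {Y | ∃ j < n, j ≤ m ∧ ∃ T ∈ 𝒯 (m - j), Y = prodPow A B j ⊗ T}
      (prodPow A B m)

end Pool.Agent.K3h14.FD
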