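import Pool.Agent.K3h14.FD.Stm

/-!
# Mean degrees of tensor products
-/

set_option autoImplicit false
set_option linter.unusedSectionVars false
set_option linter.unusedSimpArgs false
set_option backward.isDefEq.respectTransparency false
set_option backward.defeqAttrib.useBackward true

open CategoryTheory Limits MonoidalCategory
open Pool.Agent.Y112.SR Pool.Agent.Y112.KD Pool.Agent.Y112.SC Pool.Agent.K3h63.CC

namespace Pool.Agent.K3h14.FD

universe v u w

section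

variable {C : Type u} [Category.{v} C] [Preadditive C] [Linear ℚ C] [MonoidalCategory C]
  [MonoidalPreadditive C] [MonoidalLinear ℚ C] [SymmetricCategory C]
  [RightRigidCategory C] {K : Type w} [Field K] [CharZero K] {R : SuperRealisation C K}
  (G : Grading R)

lemma par_alg {X Y : C} (hX : Algebraic R ⊤ (R.par X)) (hY : Algebraic R ⊤ (R.par Y)) :
    Algebraic R ⊤ (R.par (X ⊗ Y)) := by
  rw [← bx_par]
  exact Algebraic.bx hX hY

/-- Partial traces over the second factor. -/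
lemma tr_left {X Y : C} (hX : Algebraic R ⊤ (R.par X)) (hY : Algebraic R ⊤ (R.par Y))
    {a : R.H.obj (X ⊗ Y) ⟶ R.H.obj (X ⊗ Y)} (ha : Algebraic R ⊤ a) :
    ∃ b : R.H.obj X ⟶ R.H.obj X, Algebraic R ⊤ b ∧
      ∀ d : R.H.obj X ⟶ R.H.obj X, tr _ (bx R d (𝟙 _) ≫ a) = tr _ (d ≫ b) := by
  refine ⟨PT R (a ≫ R.par (X ⊗ Y)) ≫ R.par X, (Algebraic.PT (ha.comp (par_alg hX hY))).comp hX,
    fun d => ?_⟩
  have h := trace_PT R d (a ≫ R.par (X ⊗ Y))
  rw [Category.assoc, R.par_sq, Category.comp_id, ← tr_apply, ← tr_apply] at h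
  exact h.symm

/-- Partial traces over the first factor. -/
lemma tr_right {X Y : C} (hX : Algebraic R ⊤ (R.par X)) (hY : Algebraic R ⊤ (R.par Y))
    {a : R.H.obj (X ⊗ Y) ⟶ R.H.obj (X ⊗ Y)} (ha : Algebraic R ⊤ a) :
    ∃ b : R.H.obj Y ⟶ R.H.obj Y, Algebraic R ⊤ b ∧
      ∀ d : R.H.obj Y ⟶ R.H.obj Y, IsPar R false d →
        tr _ (bx R (𝟙 _) d ≫ a) = tr _ (d ≫ b) := by
  refine ⟨PTL R (a ≫ R.par (X ⊗ Y)) ≫ R.par Y, ?_, fun d hd => ?_⟩
  · refine Algebraic.comp ?_ hY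
    rw [PTL]
    exact Algebraic.PT ((Algebraic.map _).comp ((ha.comp (par_alg hX hY)).comp (Algebraic.map _)))
  · have h := PTL_trace R (a ≫ R.par (X ⊗ Y)) d hd
    rw [Category.assoc a, R.par_sq, Category.comp_id] at h
    exact h.symm

lemma isPar_of_alg {X : C} {x : R.H.obj X ⟶ R.H.obj X} (hx : Algebraic R ⊤ x) :
    IsPar R false x := Algebraic.par_comm hx

lemma deg_comm {X : C} {x : R.H.obj X ⟶ R.H.obj X} (hx : Algebraic R ⊤ x) :
    x ≫ G.deg X = G.deg X ≫ x := by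
  apply G.ext
  intro i _
  rw [← Category.assoc, ← hx.pr_comm G, Category.assoc, Grading.deg, G.pr_th,
    Linear.comp_smul, hx.pr_comm G, ← Category.assoc, G.pr_th, Linear.smul_comp]

/-- The mean degree is additive. -/
theorem mean_bx {X Y : C} (hX : Algebraic R ⊤ (R.par X)) (hY : Algebraic R ⊤ (R.par Y))
    {e : R.H.obj X ⟶ R.H.obj X} {e' : R.H.obj Y ⟶ R.H.obj Y} (he : Algebraic R ⊤ e)
    (he' : Algebraic R ⊤ e') (hi : e ≫ e = e) (hi' : e' ≫ e' = e') {μ μ' : K}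
    (h : Mean G X e μ) (h' : Mean G Y e' μ') : Mean G (X ⊗ Y) (bx R e e') (μ + μ') := by
  intro a ha h1 h2
  have hbe : bx R e (𝟙 (R.H.obj Y)) ≫ bx R e e' = bx R e e' := by
    rw [bx_comp, hi, Category.id_comp]
  have hbe2 : bx R e e' ≫ bx R e (𝟙 (R.H.obj Y)) = bx R e e' := by
    rw [bx_comp, hi, Category.comp_id]
  have hbe' : bx R (𝟙 (R.H.obj X)) e' ≫ bx R e e' = bx R e e' := by
    rw [bx_comp, hi', Category.id_comp]
  have hbe2' : bx R e e' ≫ bx R (𝟙 (R.H.obj X)) e' = bx R e e' := by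
    rw [bx_comp, hi', Category.comp_id]
  have e1 : bx R e (𝟙 (R.H.obj Y)) ≫ a = a := by
    rw [← h1, ← Category.assoc, hbe]
  have e2 : a ≫ bx R e (𝟙 (R.H.obj Y)) = a := by
    rw [← h2, Category.assoc, hbe2]
  have e1' : bx R (𝟙 (R.H.obj X)) e' ≫ a = a := by
    rw [← h1, ← Category.assoc, hbe']
  have e2' : a ≫ bx R (𝟙 (R.H.obj X)) e' = a := by
    rw [← h2, Category.assoc, hbe2']
  -- the first factor
  have f1 : tr _ (bx R (G.deg X) (𝟙 (R.H.obj Y)) ≫ a) = μ * tr _ a := by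
    obtain ⟨b, hb, hbt⟩ := tr_left hX hY ha
    have hc := h (e ≫ b ≫ e) (he.comp (hb.comp he))
      (by rw [← Category.assoc, hi]) (by rw [Category.assoc, Category.assoc, hi])
    have g1 : tr _ (e ≫ b ≫ e) = tr _ a := by
      rw [← Category.assoc, tr_swap, ← Category.assoc, hi, ← hbt, e1]
    have g2 : tr _ ((e ≫ b ≫ e) ≫ G.deg X) = tr _ (bx R (G.deg X) (𝟙 (R.H.obj Y)) ≫ a) := by
      have g3 : tr _ ((e ≫ b ≫ e) ≫ G.deg X) = tr _ ((G.deg X ≫ e) ≫ b) := by
        have g4 : (e ≫ b ≫ e) ≫ G.deg X = (e ≫ b) ≫ (G.deg X ≫ e) := by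
          simp only [Category.assoc]
          rw [deg_comm G he]
        rw [g4, tr_swap]
        simp only [Category.assoc]
        rw [← Category.assoc e e, hi]
      rw [g3, ← hbt]
      have g5 : bx R (G.deg X ≫ e) (𝟙 (R.H.obj Y)) =
          bx R (G.deg X) (𝟙 (R.H.obj Y)) ≫ bx R e (𝟙 (R.H.obj Y)) := by
        rw [bx_comp, Category.comp_id]
      rw [g5, Category.assoc, e1]
    rw [← g2, hc, g1]
  have f2 : tr _ (bx R (𝟙 (R.H.obj X)) (G.deg Y) ≫ a) = μ' * tr _ a := by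
    obtain ⟨b, hb, hbt⟩ := tr_right hX hY ha
    have hc := h' (e' ≫ b ≫ e') (he'.comp (hb.comp he'))
      (by rw [← Category.assoc, hi']) (by rw [Category.assoc, Category.assoc, hi'])
    have g1 : tr _ (e' ≫ b ≫ e') = tr _ a := by
      rw [← Category.assoc, tr_swap, ← Category.assoc, hi', ← hbt _ (isPar_of_alg he'), e1']
    have g2 : tr _ ((e' ≫ b ≫ e') ≫ G.deg Y) = tr _ (bx R (𝟙 (R.H.obj X)) (G.deg Y) ≫ a) := by
      have g3 : tr _ ((e' ≫ b ≫ e') ≫ G.deg Y) = tr _ ((G.deg Y ≫ e') ≫ b) := by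
        have g4 : (e' ≫ b ≫ e') ≫ G.deg Y = (e' ≫ b) ≫ (G.deg Y ≫ e') := by
          simp only [Category.assoc]
          rw [deg_comm G he']
        rw [g4, tr_swap]
        simp only [Category.assoc]
        rw [← Category.assoc e' e', hi']
      have hpar : IsPar R false (G.deg Y ≫ e') := by
        have p1 : IsPar R false (G.deg Y) := G.th_isPar Y _
        have p2 := isPar_of_alg he'
        change (G.deg Y ≫ e') ≫ R.par Y = R.par Y ≫ (G.deg Y ≫ e')
        change G.deg Y ≫ R.par Y = R.par Y ≫ G.deg Y at p1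
        change e' ≫ R.par Y = R.par Y ≫ e' at p2
        rw [Category.assoc, p2, ← Category.assoc, p1, Category.assoc]
      rw [g3, ← hbt _ hpar]
      have g5 : bx R (𝟙 (R.H.obj X)) (G.deg Y ≫ e') =
          bx R (𝟙 (R.H.obj X)) (G.deg Y) ≫ bx R (𝟙 (R.H.obj X)) e' := by
        rw [bx_comp, Category.comp_id]
      rw [g5, Category.assoc, e1']
    rw [← g2, hc, g1]
  rw [tr_swap, G.deg_tensor, Preadditive.add_comp, map_add, f1, f2, add_mul]

/-- The trace of a tensor product. -/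
lemma tr_bx {X Y : C} (x : R.H.obj X ⟶ R.H.obj X) (y : R.H.obj Y ⟶ R.H.obj Y) :
    tr _ (bx R x y) = tr _ x * tr _ y := by
  have h := trace_PT R (x ≫ R.par X) (bx R (𝟙 (R.H.obj X)) (y ≫ R.par Y))
  have a1 : (y ≫ R.par Y) ≫ R.par Y = y := by rw [Category.assoc, R.par_sq, Category.comp_id]
  have a2 : (x ≫ R.par X) ≫ PT R (bx R (𝟙 (R.H.obj X)) (y ≫ R.par Y)) ≫ R.par X =
      tr _ y • x := by
    rw [PT_bx R two_ne_zero, a1, Linear.smul_comp, Linear.comp_smul, Category.id_comp,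
      Category.assoc, R.par_sq, Category.comp_id]
    rfl
  have a3 : bx R (x ≫ R.par X) (𝟙 (R.H.obj Y)) ≫ bx R (𝟙 (R.H.obj X)) (y ≫ R.par Y) ≫
      R.par (X ⊗ Y) = bx R x y := by
    rw [← bx_par, bx_comp, bx_comp, Category.id_comp, Category.id_comp, a1, Category.assoc x,
      R.par_sq, Category.comp_id]
  rw [a2, a3, ← tr_apply, ← tr_apply, map_smul, smul_eq_mul] at h
  rw [← h, mul_comm]

/-- The projectors of a tensor product, on the other side. -/
lemma pr_bx (X Y : C) (i j : ℤ) :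
    G.pr (X ⊗ Y) (i + j) ≫ bx R (G.pr X i) (G.pr Y j) = bx R (G.pr X i) (G.pr Y j) := by
  apply G.ext_bx
  intro a b
  by_cases ha : a = i
  · by_cases hb : b = j
    · subst ha; subst hb
      rw [← Category.assoc, G.bx_pr]
    · rw [← G.bx_pr X Y a b, Category.assoc, Category.assoc]
      have hne : a + b ≠ i + j := by omega
      rw [← Category.assoc (G.pr (X ⊗ Y) (a + b)), G.orth _ _ _ hne, zero_comp, comp_zero]
      rw [← Category.assoc, G.bx_pr, bx_comp, G.orth Y b j hb, bx_zero_right]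
  · have h0 : bx R (G.pr X a) (G.pr Y b) ≫ bx R (G.pr X i) (G.pr Y j) = 0 := by
      rw [bx_comp, G.orth X a i ha, bx_zero_left]
    rw [h0]
    by_cases hne : a + b = i + j
    · rw [← hne, ← Category.assoc, G.bx_pr, h0]
    · rw [← G.bx_pr X Y a b, Category.assoc, ← Category.assoc (G.pr (X ⊗ Y) (a + b)),
        G.orth _ _ _ hne, zero_comp, comp_zero]

lemma tr_ne_zero {V : ModuleCat.{w} K} (hV : Module.Finite K V) {e : V ⟶ V} (he : e ≫ e = e)
    (h0 : e ≠ 0) : tr V e ≠ 0 := by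
  obtain ⟨p, hp, hp0⟩ := tr_idem hV e he
  rw [hp]
  intro h
  exact h0 (hp0 (by exact_mod_cast h))

/-- Degrees occurring in tensor products. -/
theorem bx_pr_ne {X Y : C} {e : R.H.obj X ⟶ R.H.obj X} {e' : R.H.obj Y ⟶ R.H.obj Y}
    (he : Algebraic R ⊤ e) (he' : Algebraic R ⊤ e') (hi : e ≫ e = e) (hi' : e' ≫ e' = e')
    {k i : ℤ} (hk : e ≫ G.pr X k ≠ 0) (hi0 : e' ≫ G.pr Y i ≠ 0) :
    bx R e e' ≫ G.pr (X ⊗ Y) (k + i) ≠ 0 := by
  intro h
  have c1 := he.pr_comm G k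
  have c2 := he'.pr_comm G i
  have i1 : (e ≫ G.pr X k) ≫ (e ≫ G.pr X k) = e ≫ G.pr X k := by
    rw [Category.assoc, ← Category.assoc (G.pr X k), ← c1, Category.assoc, G.idem,
      ← Category.assoc, hi]
  have i2 : (e' ≫ G.pr Y i) ≫ (e' ≫ G.pr Y i) = e' ≫ G.pr Y i := by
    rw [Category.assoc, ← Category.assoc (G.pr Y i), ← c2, Category.assoc, G.idem,
      ← Category.assoc, hi']
  have t1 := tr_ne_zero (R.finite X) i1 hk
  have t2 := tr_ne_zero (R.finite Y) i2 hi0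
  have t3 : bx R (e ≫ G.pr X k) (e' ≫ G.pr Y i) = 0 := by
    rw [← bx_comp, ← pr_bx G, ← Category.assoc, h, zero_comp]
  have t4 := tr_bx (e ≫ G.pr X k) (e' ≫ G.pr Y i)
  rw [t3, map_zero] at t4
  exact mul_ne_zero t1 t2 t4.symm

end

end Pool.Agent.K3h14.FD
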